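import Pool.Agent.Helper96.VH.Defs
import Pool.Agent.Helper96.SP.QWORDS

/-!
# Package PSI: the contraction of the derivation of an even operator
-/

open CategoryTheory MonoidalCategory Limits BraidedCategory

universe u v w

namespace Pool.Agent.Helper66.VH

open Pool.Agent.TH90.AB Pool.Agent.TH90.Kim Pool.Agent.Helper96.Kim Pool.Agent.Helper96.SP
  Pool.Agent.Helper96.VH

set_option linter.unusedSectionVars false

section mom

variable {ι : Type} [Fintype ι] [DecidableEq ι] {n : ℕ} (q : (Fin n → ι) → ℚ)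

lemma mom_symm (a i : ι) : mom q a i = mom q i a := by
  unfold mom
  exact Finset.sum_congr rfl fun w _ => by ring

lemma mom_perm (s : Equiv.Perm ι) (hs : ∀ w, q (fun k => s (w k)) = q w) (a i : ι) :
    mom q (s a) (s i) = mom q a i := by
  unfold mom
  let S : (Fin n → ι) ≃ (Fin n → ι) := Equiv.arrowCongr (Equiv.refl _) s
  rw [← S.sum_comp]
  refine Finset.sum_congr rfl fun w _ => ?_
  have hS : S w = fun k => s (w k) := rfl
  have h1 : ∀ j, cnt (S w) (s j) = cnt w j := by
    intro j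
    unfold cnt
    congr 1
    ext k
    simp only [Finset.mem_filter, Finset.mem_univ, true_and, hS]
    exact s.injective.eq_iff
  rw [h1, h1, hS, hs]

lemma mom_move (δ : ι → ℚ) (hqs : ∀ i j, δ i = δ j → ∀ w, q (fun k => Equiv.swap i j (w k)) = q w)
    {a i j : ι} (hij : δ i = δ j) (ha : a ≠ i) (ha' : a ≠ j) : mom q a i = mom q a j := by
  have h := mom_perm q (Equiv.swap i j) (hqs i j hij) a i
  rw [Equiv.swap_apply_of_ne_of_ne ha ha', Equiv.swap_apply_left] at h
  exact h.symm

lemma mom_diag (δ : ι → ℚ) (hqs : ∀ i j, δ i = δ j → ∀ w, q (fun k => Equiv.swap i j (w k)) = q w)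
    {i j : ι} (hij : δ i = δ j) : mom q i i = mom q j j := by
  have h := mom_perm q (Equiv.swap i j) (hqs i j hij) i i
  rw [Equiv.swap_apply_left] at h
  exact h.symm

lemma mom_off (δ : ι → ℚ) (hqs : ∀ i j, δ i = δ j → ∀ w, q (fun k => Equiv.swap i j (w k)) = q w)
    {i j i' j' : ι} (hij : i ≠ j) (hij' : i' ≠ j') (h1 : δ i = δ j) (h2 : δ i' = δ j')
    (h3 : δ i = δ i') : mom q i j = mom q i' j' := by
  by_cases h : i = j'
  · subst h
    rw [mom_symm q i' i]
    exact mom_move q δ hqs (h1.symm.trans h3) hij hij'.symm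
  · rw [mom_move q δ hqs (h1.symm.trans (h3.trans h2)) hij h, mom_symm q i j', mom_symm q i' j']
    exact mom_move q δ hqs h3 (Ne.symm h) hij'.symm

lemma mom_diff (δ : ι → ℚ) (hqs : ∀ i j, δ i = δ j → ∀ w, q (fun k => Equiv.swap i j (w k)) = q w)
    {i j i' j' : ι} (hij : i ≠ j) (hij' : i' ≠ j') (h1 : δ i = δ j) (h2 : δ i' = δ j')
    (h3 : δ i = δ i') : mom q i i - mom q i j = mom q i' i' - mom q i' j' := by
  rw [mom_diag q δ hqs h3, mom_off q δ hqs hij hij' h1 h2 h3]

end mom

variable {𝒜 : Type u} [Category.{v} 𝒜] [MonoidalCategory 𝒜] [SymmetricCategory 𝒜]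
  [Preadditive 𝒜] [MonoidalPreadditive 𝒜] [Linear ℚ 𝒜] [MonoidalLinear ℚ 𝒜]
  {K : Type w} [Field K] [CharZero K] {F : Realisation 𝒜 K}

/-- the derivation of a commutator -/
lemma der_comm {M : 𝒜} {x y : F.V M →ₗ[K] F.V M} {n : ℕ}
    {X Y : F.V (T M n) →ₗ[K] F.V (T M n)} (hX : IsDer F x n X) (hY : IsDer F y n Y) :
    IsDer F (x ∘ₗ y - y ∘ₗ x) n (X ∘ₗ Y - Y ∘ₗ X) := by
  classical
  have key : ∀ {x y : F.V M →ₗ[K] F.V M} {X Y : F.V (T M n) →ₗ[K] F.V (T M n)},
      IsDer F x n X → IsDer F y n Y → ∀ v : Fin n → F.V M, X (Y (wd F n v)) =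
        ∑ j, wd F n (Function.update v j (x (y (v j)))) + ∑ j, ∑ k, if k = j then 0 else
          wd F n (Function.update (Function.update v j (y (v j))) k (x (v k))) := by
    intro x y X Y hX hY v
    rw [hY v, map_sum, ← Finset.sum_add_distrib]
    refine Finset.sum_congr rfl fun j _ => ?_
    rw [hX]
    have h1 : wd F n (Function.update v j (x (y (v j)))) =
        ∑ k, if k = j then wd F n (Function.update v j (x (y (v j)))) else 0 := by
      rw [Finset.sum_ite_eq' Finset.univ j, if_pos (Finset.mem_univ _)]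
    rw [h1, ← Finset.sum_add_distrib]
    refine Finset.sum_congr rfl fun k _ => ?_
    by_cases hk : k = j
    · subst hk
      rw [if_pos rfl, if_pos rfl, add_zero, Function.update_self, Function.update_idem]
    · rw [if_neg hk, if_neg hk, zero_add, Function.update_of_ne hk]
  intro v
  have hsub : ∀ j, wd F n (Function.update v j ((x ∘ₗ y - y ∘ₗ x) (v j))) =
      wd F n (Function.update v j (x (y (v j)))) - wd F n (Function.update v j (y (x (v j)))) := by
    intro j
    have h1 : ∀ z, wd F n (Function.update v j z) = (WD.wdM F M n).toLinearMap v j z := by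
      intro z
      rw [MultilinearMap.toLinearMap_apply, WD.wdM_apply]
    rw [h1, h1, h1, LinearMap.sub_apply, map_sub]
    rfl
  rw [LinearMap.sub_apply, LinearMap.comp_apply, LinearMap.comp_apply, key hX hY v, key hY hX v]
  simp only [hsub]
  rw [Finset.sum_sub_distrib]
  have h2 : (∑ j, ∑ k, if k = j then 0 else
      wd F n (Function.update (Function.update v j (x (v j))) k (y (v k)))) =
      ∑ j, ∑ k, if k = j then 0 else
        wd F n (Function.update (Function.update v j (y (v j))) k (x (v k))) := by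
    rw [Finset.sum_comm]
    refine Finset.sum_congr rfl fun j _ => Finset.sum_congr rfl fun k _ => ?_
    by_cases hk : k = j
    · rw [if_pos hk.symm, if_pos hk]
    · rw [if_neg (Ne.symm hk), if_neg hk, Function.update_comm hk]
  rw [h2]
  abel

theorem psi_of {M : 𝒜} {φ : Fam M} {ι : Type} [Fintype ι] [DecidableEq ι]
    (b : Module.Basis ι K (F.V M))
    (δ : ι → ℚ) (hb : ∀ i, F.par M (b i) = (δ i : K) • b i) (n : ℕ)
    (C : (F.V (T M (n + 1)) →ₗ[K] F.V (T M (n + 1))) →ₗ[K] (F.V M →ₗ[K] F.V M))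
    (e : QS (n + 1)) (q : (Fin (n + 1) → ι) → ℚ)
    (hqs : ∀ i j, δ i = δ j → ∀ w, q (fun k => Equiv.swap i j (w k)) = q w)
    (hEQV : ∀ (x : F.V M →ₗ[K] F.V M), Ev F x →
      ∀ E : F.V (T M (n + 1)) →ₗ[K] F.V (T M (n + 1)), IsDer F x (n + 1) E →
      ∀ H : F.V (T M (n + 1)) →ₗ[K] F.V (T M (n + 1)),
        C (E ∘ₗ H - H ∘ₗ E) = x ∘ₗ C H - C H ∘ₗ x)
    (hPD : ∀ (a : ι) (y : F.V M →ₗ[K] F.V M),
      (∀ i, y (b i) = (if i = a then (1 : K) else 0) • b i) →
      ∀ E : F.V (T M (n + 1)) →ₗ[K] F.V (T M (n + 1)), IsDer F y (n + 1) E → ∀ i,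
        C (F.par (T M (n + 1)) ∘ₗ E ∘ₗ F.map (rh φ (n + 1) (zc e))) (b i) =
          ((δ i * (n.factorial * mom q a i) : ℚ) : K) • b i)
    (hEx : ∀ y : F.V M →ₗ[K] F.V M, Ev F y →
      ∃ E : F.V (T M (n + 1)) →ₗ[K] F.V (T M (n + 1)), IsDer F y (n + 1) E ∧
      (∀ z : QS (n + 1), ∀ x, E (F.map (rh φ (n + 1) z) x) = F.map (rh φ (n + 1) z) (E x)) ∧ Ev F E)
    (hUn : ∀ (y : F.V M →ₗ[K] F.V M) (E E' : F.V (T M (n + 1)) →ₗ[K] F.V (T M (n + 1))),
      IsDer F y (n + 1) E → IsDer F y (n + 1) E' → E = E')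
    (y : F.V M →ₗ[K] F.V M) (hy : Ev F y)
    (E : F.V (T M (n + 1)) →ₗ[K] F.V (T M (n + 1))) (hE : IsDer F y (n + 1) E) :
    ∃ (α : ℚ → ℚ) (c : ℚ → K), (∀ i j, i ≠ j → δ i = δ j →
        α (δ i) = n.factorial * (mom q i i - mom q i j)) ∧
      ∀ i, C (F.par (T M (n + 1)) ∘ₗ E ∘ₗ F.map (rh φ (n + 1) (zc e))) (b i) =
        ((δ i * α (δ i) : ℚ) : K) • y (b i) + c (δ i) • b i := by
  classical
  -- the constants `α`
  let α : ℚ → ℚ := fun ε => if h : ∃ p : ι × ι, p.1 ≠ p.2 ∧ δ p.1 = ε ∧ δ p.2 = ε then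
    n.factorial * (mom q h.choose.1 h.choose.1 - mom q h.choose.1 h.choose.2) else 0
  have hα : ∀ i j, i ≠ j → δ i = δ j → α (δ i) = n.factorial * (mom q i i - mom q i j) := by
    intro i j hij hd
    have h : ∃ p : ι × ι, p.1 ≠ p.2 ∧ δ p.1 = δ i ∧ δ p.2 = δ i := ⟨(i, j), hij, rfl, hd.symm⟩
    obtain ⟨h1, h2, h3⟩ := h.choose_spec
    simp only [α]
    rw [dif_pos h, mom_diff q δ hqs h1 hij (h2.trans h3.symm) hd h2]
  -- matrix units
  let U : ι → ι → (F.V M →ₗ[K] F.V M) := fun a c => b.constr K fun j => if j = c then b a else 0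
  have hU : ∀ a c j, U a c (b j) = if j = c then b a else 0 := fun a c j =>
    b.constr_basis K _ j
  have hUE : ∀ a c, δ a = δ c → Ev F (U a c) := by
    intro a c hac x
    have h1 : F.par M ∘ₗ U a c = U a c ∘ₗ F.par M := by
      refine b.ext fun j => ?_
      rw [LinearMap.comp_apply, LinearMap.comp_apply, hb, _root_.map_smul, hU]
      by_cases hj : j = c
      · rw [if_pos hj, hb, hj, hac]
      · rw [if_neg hj, _root_.map_zero, smul_zero]
    exact congrArg (fun f => f x) h1
  have hDex : ∀ a c, ∃ D : F.V (T M (n + 1)) →ₗ[K] F.V (T M (n + 1)), δ a = δ c →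
      IsDer F (U a c) (n + 1) D ∧
      (∀ z : QS (n + 1), ∀ x, D (F.map (rh φ (n + 1) z) x) = F.map (rh φ (n + 1) z) (D x)) ∧
        Ev F D := by
    intro a c
    by_cases hac : δ a = δ c
    · obtain ⟨D, hD⟩ := hEx (U a c) (hUE a c hac)
      exact ⟨D, fun _ => hD⟩
    · exact ⟨0, fun h => absurd h hac⟩
  choose D hD using hDex
  -- the entries of `y`
  let Y : ι → ι → K := fun a c => b.repr (y (b c)) a
  have hyb : ∀ c, y (b c) = ∑ a, Y a c • b a := fun c => (b.sum_repr (y (b c))).symm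
  have hpar : ∀ z a, b.repr (F.par M z) a = (δ a : K) * b.repr z a := by
    intro z a
    have h1 : Finsupp.lapply a ∘ₗ b.repr.toLinearMap ∘ₗ F.par M =
        (δ a : K) • (Finsupp.lapply a ∘ₗ b.repr.toLinearMap) := by
      refine b.ext fun j => ?_
      simp only [LinearMap.comp_apply, LinearMap.smul_apply, LinearEquiv.coe_coe,
        Finsupp.lapply_apply, hb, _root_.map_smul, Module.Basis.repr_self,
        smul_eq_mul, Finsupp.single_apply]
      by_cases hj : j = a
      · rw [if_pos hj, hj]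
      · rw [if_neg hj, mul_zero, mul_zero]
    exact congrArg (fun f => f z) h1
  have hY0 : ∀ a c, δ a ≠ δ c → Y a c = 0 := by
    intro a c hac
    have h1 := hpar (y (b c)) a
    rw [hy (b c), hb, _root_.map_smul, _root_.map_smul, Finsupp.smul_apply, smul_eq_mul] at h1
    have h2 : ((δ c : K) - (δ a : K)) * Y a c = 0 := by
      rw [sub_mul]
      exact sub_eq_zero.2 h1
    rcases mul_eq_zero.1 h2 with h3 | h3
    · exfalso
      apply hac
      have h4 : (δ c : K) = (δ a : K) := sub_eq_zero.1 h3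
      exact_mod_cast h4.symm
    · exact h3
  have hyU : ∀ x, y x = ∑ a, ∑ c, Y a c • U a c x := by
    intro x
    have h1 : y = ∑ a, ∑ c, Y a c • U a c := by
      refine b.ext fun j => ?_
      rw [hyb, LinearMap.sum_apply]
      refine Finset.sum_congr rfl fun a _ => ?_
      rw [LinearMap.sum_apply, Finset.sum_eq_single j]
      · rw [LinearMap.smul_apply, hU, if_pos rfl]
      · intro c _ hc
        rw [LinearMap.smul_apply, hU, if_neg (Ne.symm hc), smul_zero]
      · simp
    conv_lhs => rw [h1]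
    simp only [LinearMap.sum_apply, LinearMap.smul_apply]
  have hED : E = ∑ a, ∑ c, Y a c • D a c := by
    refine hUn y _ _ hE fun v => ?_
    have h1 : ∀ j z, wd F (n + 1) (Function.update v j z) =
        (WD.wdM F M (n + 1)).toLinearMap v j z := by
      intro j z
      rw [MultilinearMap.toLinearMap_apply, WD.wdM_apply]
    simp only [LinearMap.sum_apply, LinearMap.smul_apply]
    have h2 : ∀ a c, Y a c • D a c (wd F (n + 1) v) =
        ∑ j, Y a c • (WD.wdM F M (n + 1)).toLinearMap v j (U a c (v j)) := by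
      intro a c
      by_cases hac : δ a = δ c
      · rw [(hD a c hac).1 v, Finset.smul_sum]
        refine Finset.sum_congr rfl fun j _ => ?_
        rw [h1]
      · rw [hY0 a c hac, zero_smul]
        simp
    simp only [h2, h1, hyU, map_sum, _root_.map_smul]
    have h3 : ∀ a, (∑ c, ∑ j, Y a c • (WD.wdM F M (n + 1)).toLinearMap v j (U a c (v j))) =
        ∑ j, ∑ c, Y a c • (WD.wdM F M (n + 1)).toLinearMap v j (U a c (v j)) :=
      fun a => Finset.sum_comm
    simp only [h3]
    exact Finset.sum_comm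
  -- the contractions
  set P := F.map (rh φ (n + 1) (zc e)) with hP
  set Q := F.par (T M (n + 1)) with hQ
  have hT1 : ∀ a i, C (Q ∘ₗ D a a ∘ₗ P) (b i) = ((δ i * (n.factorial * mom q a i) : ℚ) : K) • b i := by
    intro a i
    refine hPD a (U a a) (fun i => ?_) (D a a) (hD a a rfl).1 i
    rw [hU]
    by_cases h : i = a
    · rw [if_pos h, if_pos h, one_smul, h]
    · rw [if_neg h, if_neg h, zero_smul]
  have hT2 : ∀ a c, a ≠ c → δ a = δ c → ∀ j, C (Q ∘ₗ D a c ∘ₗ P) (b j) =
      if j = c then ((δ c * (n.factorial * (mom q c c - mom q c a)) : ℚ) : K) • b a else 0 := by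
    intro a c hac hd j
    obtain ⟨d1, d2, d3⟩ := hD a c hd
    obtain ⟨g1, g2, g3⟩ := hD c c rfl
    have h1 : D a c ∘ₗ D c c - D c c ∘ₗ D a c = D a c := by
      refine hUn (U a c) _ _ ?_ d1
      have h2 : U a c ∘ₗ U c c - U c c ∘ₗ U a c = U a c := by
        refine b.ext fun j => ?_
        rw [LinearMap.sub_apply, LinearMap.comp_apply, LinearMap.comp_apply, hU, hU]
        by_cases hj : j = c
        · rw [if_pos hj, if_pos hj, hU, hU, if_pos rfl, if_neg hac, sub_zero]
        · rw [if_neg hj, if_neg hj, _root_.map_zero, _root_.map_zero, sub_zero]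
      have h3 := der_comm d1 g1
      rwa [h2] at h3
    have h4 : D a c ∘ₗ (Q ∘ₗ D c c ∘ₗ P) - (Q ∘ₗ D c c ∘ₗ P) ∘ₗ D a c = Q ∘ₗ D a c ∘ₗ P := by
      ext z
      have h5 := congrArg (fun f => f (P z)) h1
      simp only [LinearMap.sub_apply, LinearMap.comp_apply] at h5 ⊢
      have e1 : D a c (Q (D c c (P z))) = Q (D a c (D c c (P z))) := (d3 _).symm
      have e2 : P (D a c z) = D a c (P z) := (d2 (zc e) z).symm
      rw [e1, e2, ← map_sub, h5]
    have h6 := hEQV (U a c) (hUE a c hd) (D a c) d1 (Q ∘ₗ D c c ∘ₗ P)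
    rw [h4] at h6
    rw [h6, LinearMap.sub_apply, LinearMap.comp_apply, LinearMap.comp_apply, hT1,
      _root_.map_smul, hU]
    by_cases hj : j = c
    · rw [if_pos hj, if_pos hj, hT1, ← sub_smul, hj, ← Rat.cast_sub, hd]
      congr 2
      ring
    · rw [if_neg hj, if_neg hj, smul_zero, _root_.map_zero, sub_zero]
  -- the scalars
  let s : ι → K := fun i => (δ i : K) * ((n.factorial : K) * (∑ a, Y a a * (mom q a i : K)) -
    (α (δ i) : K) * Y i i)
  have hs : ∀ i j, δ i = δ j → s i = s j := by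
    intro i j hd
    by_cases hij : i = j
    · rw [hij]
    · have h1 : (∑ a, Y a a * (mom q a i : K)) - (∑ a, Y a a * (mom q a j : K)) =
          Y i i * ((mom q i i - mom q i j : ℚ) : K) + Y j j * ((mom q j i - mom q j j : ℚ) : K) := by
        rw [← Finset.sum_sub_distrib, Finset.sum_eq_add i j hij]
        · rw [Rat.cast_sub, Rat.cast_sub]
          ring
        · intro a _ ha
          rw [mom_move q δ hqs hd ha.1 ha.2, sub_self]
        · intro h
          exact absurd (Finset.mem_univ _) h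
        · intro h
          exact absurd (Finset.mem_univ _) h
      have h2 : (mom q j i - mom q j j : ℚ) = -(mom q i i - mom q i j) := by
        rw [mom_symm q j i, mom_diag q δ hqs hd]
        ring
      have h3 : (α (δ i) : K) = (n.factorial : K) * ((mom q i i - mom q i j : ℚ) : K) := by
        rw [hα i j hij hd, Rat.cast_mul, Rat.cast_natCast]
      rw [h2, Rat.cast_neg] at h1
      simp only [s]
      rw [← hd, ← sub_eq_zero]
      have h4 : (∑ a, Y a a * (mom q a i : K)) = (∑ a, Y a a * (mom q a j : K)) +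
          (Y i i * ((mom q i i - mom q i j : ℚ) : K) +
            Y j j * -((mom q i i - mom q i j : ℚ) : K)) := by
        rw [← h1]; ring
      rw [h4, h3]
      ring
  let c : ℚ → K := fun ε => if h : ∃ i, δ i = ε then s h.choose else 0
  have hc : ∀ i, c (δ i) = s i := by
    intro i
    have h : ∃ j, δ j = δ i := ⟨i, rfl⟩
    simp only [c]
    rw [dif_pos h]
    exact hs _ _ h.choose_spec
  refine ⟨α, c, hα, fun i => ?_⟩
  have hsum : C (Q ∘ₗ E ∘ₗ P) (b i) = ∑ a, ∑ c, Y a c • C (Q ∘ₗ D a c ∘ₗ P) (b i) := by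
    rw [hED]
    have h1 : Q ∘ₗ (∑ a, ∑ c, Y a c • D a c) ∘ₗ P = ∑ a, ∑ c, Y a c • (Q ∘ₗ D a c ∘ₗ P) := by
      ext z
      simp only [LinearMap.comp_apply, LinearMap.sum_apply, LinearMap.smul_apply, map_sum,
        _root_.map_smul]
    rw [h1]
    simp only [map_sum, _root_.map_smul, LinearMap.sum_apply, LinearMap.smul_apply]
  have hrow : ∀ a, ∑ c, Y a c • C (Q ∘ₗ D a c ∘ₗ P) (b i) =
      (Y a a * ((δ i * (n.factorial * mom q a i) : ℚ) : K)) • b i +
        if a = i then 0 else (((δ i * α (δ i) : ℚ) : K) * Y a i) • b a := by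
    intro a
    have hz : ∀ c, c ≠ a → c ≠ i → Y a c • C (Q ∘ₗ D a c ∘ₗ P) (b i) = 0 := by
      intro c h1 h2
      by_cases hd : δ a = δ c
      · rw [hT2 a c (Ne.symm h1) hd, if_neg (Ne.symm h2), smul_zero]
      · rw [hY0 a c hd, zero_smul]
    by_cases ha : a = i
    · subst ha
      rw [if_pos rfl, add_zero, Finset.sum_eq_single a (fun c _ h => hz c h h)
        (fun h => absurd (Finset.mem_univ _) h), hT1, smul_smul]
    · rw [if_neg ha, Finset.sum_eq_add a i ha (fun c _ h => hz c h.1 h.2)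
        (fun h => absurd (Finset.mem_univ _) h) (fun h => absurd (Finset.mem_univ _) h), hT1,
        smul_smul]
      congr 1
      by_cases hd : δ a = δ i
      · rw [hT2 a i ha hd, if_pos rfl, hα i a (Ne.symm ha) hd.symm, smul_smul, mul_comm]
      · rw [hY0 a i hd, zero_smul, mul_zero, zero_smul]
  rw [hsum]
  simp only [hrow]
  rw [Finset.sum_add_distrib, ← Finset.sum_smul, hc, hyb, Finset.smul_sum]
  have h1 : ∑ a, ((δ i * α (δ i) : ℚ) : K) • Y a i • b a =
      (((δ i * α (δ i) : ℚ) : K) * Y i i) • b i +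
        ∑ a, if a = i then 0 else (((δ i * α (δ i) : ℚ) : K) * Y a i) • b a := by
    have h2 : (((δ i * α (δ i) : ℚ) : K) * Y i i) • b i =
        ∑ a, if a = i then (((δ i * α (δ i) : ℚ) : K) * Y i i) • b i else 0 := by
      rw [Finset.sum_ite_eq' Finset.univ i, if_pos (Finset.mem_univ _)]
    rw [h2, ← Finset.sum_add_distrib]
    refine Finset.sum_congr rfl fun a _ => ?_
    by_cases ha : a = i
    · rw [if_pos ha, if_pos ha, add_zero, smul_smul, ha]
    · rw [if_neg ha, if_neg ha, zero_add, smul_smul]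
  rw [h1]
  have h3 : (∑ a, Y a a * ((δ i * (n.factorial * mom q a i) : ℚ) : K)) =
      ((δ i * α (δ i) : ℚ) : K) * Y i i + s i := by
    have h4 : ∀ a, Y a a * ((δ i * (n.factorial * mom q a i) : ℚ) : K) =
        (δ i : K) * (n.factorial : K) * (Y a a * (mom q a i : K)) := by
      intro a
      rw [Rat.cast_mul, Rat.cast_mul, Rat.cast_natCast]
      ring
    simp only [h4, s]
    rw [← Finset.mul_sum, Rat.cast_mul]
    ring
  rw [h3, add_smul]
  abel

end Pool.Agent.Helper66.VH
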